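import Pool.Agent.H25.BCE.Stmts

/-!
MP_696a38_gt, board `bce`: module GAP (the action gap).
-/

set_option autoImplicit false

namespace Pool.Agent.H25.BCE

open scoped ContDiff Topology
open Pool.Agent.H73 (P V ex ey pb solA solG mu0 Gam lin)

theorem GAPx_per (hFUN : FUNStmt) (s : ℝ) (j : ℤ) : ff (s + j * Per) = ff s := by
  have h : Function.Periodic ff Per := hFUN.2.1
  exact (h.int_mul j) s

theorem GAPx_small (hFUN : FUNStmt) (s s' : ℝ) (h : s < s') :
    (ff s' - s') - (ff s - s) < cc := by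
  have h1 := (hFUN.2.2.1 s').2
  have h2 := (hFUN.2.2.1 s).1
  linarith

/-- the possible values of the difference of the actions -/
theorem GAPx_val (hFUN : FUNStmt) (hCCP : CCPStmt) {s₂ : ℝ} (h12 : s1 < s₂)
    (hD : ff s1 - s1 < ff s₂ - s₂) {s s' : ℝ}
    (hs : ∃ j : ℤ, s = s1 + j * Per ∨ s = s₂ + j * Per)
    (hs' : ∃ j : ℤ, s' = s1 + j * Per ∨ s' = s₂ + j * Per) :
    (ff s - s) - (ff s' - s') = 0 ∨
      min ((ff s₂ - s₂) - (ff s1 - s1)) (cc + 1) ≤ |(ff s - s) - (ff s' - s')| := by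
  have hcc : 0 < cc := hCCP.1
  have hper : Per = 2 * cc + 1 := rfl
  have hsm := GAPx_small hFUN s1 s₂ h12
  -- general form of the difference
  have key : ∀ (e : ℝ) (k : ℤ), |e| ≤ (ff s₂ - s₂) - (ff s1 - s1) →
      (e = 0 ∨ |e| = (ff s₂ - s₂) - (ff s1 - s1)) →
      e + k * Per = 0 ∨ min ((ff s₂ - s₂) - (ff s1 - s1)) (cc + 1) ≤ |e + k * Per| := by
    intro e k he he'
    by_cases hk : k = 0
    · subst hk
      rcases he' with h | h
      · left; simp [h]
      · right
        simp only [Int.cast_zero, zero_mul, add_zero]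
        rw [h]
        exact min_le_left _ _
    · right
      have hk1 : (1 : ℝ) ≤ |(k : ℝ)| := by
        have := Int.one_le_abs hk
        exact_mod_cast this
      have hP : (0 : ℝ) < Per := by rw [hper]; linarith
      have h3 : Per ≤ |(k : ℝ) * Per| := by
        rw [abs_mul, abs_of_pos hP]
        nlinarith
      have h4 : |(k : ℝ) * Per| ≤ |e + k * Per| + |e| := by
        have := abs_sub (e + k * Per) e
        have h5 : e + (k : ℝ) * Per - e = k * Per := by ring
        rw [h5] at this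
        exact this
      refine (min_le_right _ _).trans ?_
      rw [hper] at h3 h4 ⊢
      linarith
  obtain ⟨j, hj⟩ := hs
  obtain ⟨j', hj'⟩ := hs'
  have p1 := GAPx_per hFUN s1 j
  have p2 := GAPx_per hFUN s₂ j
  have p1' := GAPx_per hFUN s1 j'
  have p2' := GAPx_per hFUN s₂ j'
  have hD0 : 0 < (ff s₂ - s₂) - (ff s1 - s1) := by linarith
  rcases hj with hj | hj <;> rcases hj' with hj' | hj' <;> rw [hj, hj']
  · have := key 0 (j' - j) (by simpa using hD0.le) (Or.inl rfl)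
    rw [p1, p1']
    have e1 : (ff s1 - (s1 + j * Per)) - (ff s1 - (s1 + j' * Per)) =
        0 + ((j' - j : ℤ) : ℝ) * Per := by push_cast; ring
    rw [e1]; exact this
  · have := key (-((ff s₂ - s₂) - (ff s1 - s1))) (j' - j)
      (by rw [abs_neg, abs_of_pos hD0]) (Or.inr (by rw [abs_neg, abs_of_pos hD0]))
    rw [p1, p2']
    have e1 : (ff s1 - (s1 + j * Per)) - (ff s₂ - (s₂ + j' * Per)) =
        -((ff s₂ - s₂) - (ff s1 - s1)) + ((j' - j : ℤ) : ℝ) * Per := by push_cast; ring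
    rw [e1]; exact this
  · have := key ((ff s₂ - s₂) - (ff s1 - s1)) (j' - j)
      (by rw [abs_of_pos hD0]) (Or.inr (by rw [abs_of_pos hD0]))
    rw [p2, p1']
    have e1 : (ff s₂ - (s₂ + j * Per)) - (ff s1 - (s1 + j' * Per)) =
        ((ff s₂ - s₂) - (ff s1 - s1)) + ((j' - j : ℤ) : ℝ) * Per := by push_cast; ring
    rw [e1]; exact this
  · have := key 0 (j' - j) (by simpa using hD0.le) (Or.inl rfl)
    rw [p2, p2']
    have e1 : (ff s₂ - (s₂ + j * Per)) - (ff s₂ - (s₂ + j' * Per)) =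
        0 + ((j' - j : ℤ) : ℝ) * Per := by push_cast; ring
    rw [e1]; exact this

theorem GAP_thm (hOR2 : OR2Stmt) (hACT : ACTStmt) (hFUN : FUNStmt) (hCCP : CCPStmt) :
    GAPStmt := by
  have hcc : 0 < cc := hCCP.1
  obtain ⟨s₂, h12, h2b, d1, d2, dd1, dd2, hall, hD⟩ := hFUN.2.2.2
  have hδ : 0 < min ((ff s₂ - s₂) - (ff s1 - s1)) (cc + 1) :=
    lt_min (by linarith) (by linarith)
  refine ⟨min ((ff s₂ - s₂) - (ff s1 - s1)) (cc + 1), hδ, ?_⟩
  intro m a hm x y hx hy
  obtain ⟨z, s, hs, rfl⟩ := hOR2 m a x hm hx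
  obtain ⟨z', s', hs', rfl⟩ := hOR2 m a y hm hy
  rw [hACT m a z s z' s']
  have hm1 : (1 : ℝ) ≤ m := by exact_mod_cast hm
  rcases GAPx_val hFUN hCCP h12 hD (hall s hs) (hall s' hs') with h | h
  · left; rw [h, mul_zero]
  · right
    rw [abs_mul, abs_of_nonneg (by linarith : (0 : ℝ) ≤ m)]
    have h0 := abs_nonneg ((ff s - s) - (ff s' - s'))
    nlinarith

end Pool.Agent.H25.BCE
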