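import Pool.Agent.H12.BCE.GAP

/-!
MP_696a38_gt, board `bce`: module LIS (two orbits in each class).
-/

set_option autoImplicit false

namespace Pool.Agent.H25.BCE

open scoped ContDiff Topology
open Pool.Agent.H73 (P V ex ey pb solA solG mu0 Gam lin)

theorem LISx_shift (m : ℕ) (a : ℝ × ℝ) (hm : 1 ≤ m) (z s : ℝ) (j : ℤ) (t : ℝ) :
    orb m a z (s + j * Per) t = dk 0 j 0 0 (orb m a 0 s (t + z / m)) := by
  have hm0 : (m : ℝ) ≠ 0 := by
    have : (1 : ℝ) ≤ m := by exact_mod_cast hm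
    positivity
  rw [dk_apply]
  refine Prod.ext ?_ ?_
  · funext i
    simp only [Prod.fst_add, Pi.add_apply, LL_fst]
    fin_cases i
    · simp [trn, wt, orb]
    · simp [trn, wt, orb]
    · simp [trn, wt, orb]
      field_simp
      ring
  · funext i
    simp only [Prod.snd_add, Pi.add_apply, LL_snd]
    fin_cases i
    · simp [trn, wt, orb]
    · simp [trn, wt, orb]
    · simp [trn, wt, orb]
      ring

theorem LISx_comm (m : ℕ) (a : ℝ × ℝ) (j : ℤ) :
    dk 0 j 0 0 * dk m 0 a 0 = dk m 0 a 0 * dk 0 j 0 0 := by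
  have h0 : ∀ l : ℤ, sc l (0 : ℝ × ℝ) = 0 := by
    intro l
    refine Prod.ext ?_ ?_ <;> simp [sc]
  rw [dk_mul, dk_mul]
  simp [sc_zero, h0]

theorem LIS_thm (hOR1 : OR1Stmt) (hOR2 : OR2Stmt) (hNDG : NDGStmt) (hACT : ACTStmt)
    (hCEN : CENStmt) (hFUN : FUNStmt) (hCCP : CCPStmt) : LISStmt := by
  intro m a hm ha
  have hcc : 0 < cc := hCCP.1
  have hper : Per = 2 * cc + 1 := rfl
  obtain ⟨s₂, h12, h2b, d1, d2, dd1, dd2, hall, hD⟩ := hFUN.2.2.2
  have hsm := GAPx_small hFUN s1 s₂ h12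
  have hm1 : (1 : ℝ) ≤ m := by exact_mod_cast hm
  -- the difference is not a period
  have hne : ∀ (e : ℝ) (k : ℤ), |e| = (ff s₂ - s₂) - (ff s1 - s1) → e + k * Per ≠ 0 := by
    intro e k he h0
    have hD0 : 0 < (ff s₂ - s₂) - (ff s1 - s1) := by linarith
    by_cases hk : k = 0
    · subst hk
      simp only [Int.cast_zero, zero_mul, add_zero] at h0
      rw [h0, abs_zero] at he
      linarith
    · have hk1 : (1 : ℝ) ≤ |(k : ℝ)| := by
        have := Int.one_le_abs hk
        exact_mod_cast this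
      have hP : (0 : ℝ) < Per := by rw [hper]; linarith
      have h3 : Per ≤ |(k : ℝ) * Per| := by
        rw [abs_mul, abs_of_pos hP]
        nlinarith
      have h4 : (k : ℝ) * Per = -e := by linarith
      rw [h4, abs_neg, he, hper] at h3
      linarith
  refine ⟨![orb m a 0 s1, orb m a 0 s₂], ?_, ?_, ?_, ?_⟩
  · intro i
    fin_cases i
    · exact hOR1 m a 0 s1 hm d1
    · exact hOR1 m a 0 s₂ hm d2
  · intro i
    fin_cases i
    · exact hNDG m a 0 s1 hm d1 dd1
    · exact hNDG m a 0 s₂ hm d2 dd2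
  · intro x hx
    obtain ⟨z, s, hs, rfl⟩ := hOR2 m a x hm hx
    obtain ⟨j, hj | hj⟩ := hall s hs
    · refine ⟨0, dk 0 j 0 0, dk_mem Gam.zero_mem Gam.zero_mem, LISx_comm m a j, z / m, ?_⟩
      intro t
      rw [hj]
      exact LISx_shift m a hm z s1 j t
    · refine ⟨1, dk 0 j 0 0, dk_mem Gam.zero_mem Gam.zero_mem, LISx_comm m a j, z / m, ?_⟩
      intro t
      rw [hj]
      exact LISx_shift m a hm z s₂ j t
  · have hm0 : (m : ℝ) ≠ 0 := by positivity
    have hD0 : 0 < (ff s₂ - s₂) - (ff s1 - s1) := by linarith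
    intro i j hij h hG hcomm
    fin_cases i <;> fin_cases j
    · exact absurd rfl hij
    · obtain ⟨z', k, hk⟩ := hCEN m a hm h hG hcomm 0 s₂
      have e1 : (fun t => h (orb m a 0 s₂ t)) = orb m a z' (s₂ + k * Per) := funext hk
      have e2 : actionDiff ((m : ℝ) • Ham) (orb m a 0 s1) (fun t => h (orb m a 0 s₂ t)) =
          m * (-((ff s₂ - s₂) - (ff s1 - s1)) + k * Per) := by
        rw [e1, hACT, GAPx_per hFUN]
        ring
      have e3 := hne (-((ff s₂ - s₂) - (ff s1 - s1))) k (by rw [abs_neg, abs_of_pos hD0])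
      intro h0
      exact (mul_ne_zero hm0 e3) (e2.symm.trans h0)
    · obtain ⟨z', k, hk⟩ := hCEN m a hm h hG hcomm 0 s1
      have e1 : (fun t => h (orb m a 0 s1 t)) = orb m a z' (s1 + k * Per) := funext hk
      have e2 : actionDiff ((m : ℝ) • Ham) (orb m a 0 s₂) (fun t => h (orb m a 0 s1 t)) =
          m * (((ff s₂ - s₂) - (ff s1 - s1)) + k * Per) := by
        rw [e1, hACT, GAPx_per hFUN]
        ring
      have e3 := hne ((ff s₂ - s₂) - (ff s1 - s1)) k (by rw [abs_of_pos hD0])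
      intro h0
      exact (mul_ne_zero hm0 e3) (e2.symm.trans h0)
    · exact absurd rfl hij

end Pool.Agent.H25.BCE
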